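import Pool.Agent.H800R3.ConfC

/-!
Finite point sets of the plane up to order type.  `Cls 6` is the class of configurations with no
six points in general position.  It is well-quasi-ordered under the subconfiguration relation:
every infinite sequence of such configurations contains two members, the earlier one being a
subconfiguration of the later one.
-/

namespace Pool.Agent.Results.MP_639dfe_co.WqoSix

open Pool.Agent.H800R3

theorem result : IsWqo (Cls 6) := wqo_six

end Pool.Agent.Results.MP_639dfe_co.WqoSix
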